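import Pool.Agent.H95.WInf

set_option autoImplicit false
open Matrix

theorem Pool.Agent.Results.MP_916daf_an.Cex.result :
    ∃ (A : Matrix (Fin 2) (Fin 2) ℂ) (T : ℝ → Matrix (Fin 2) (Fin 2) ℂ),
      (∃ θ : ℝ, 0 ≤ θ ∧ θ < Real.pi / 2 ∧ ∀ u : Fin 2 → ℂ, star u ⬝ᵥ A *ᵥ u = 0 ∨
        |Complex.arg (star u ⬝ᵥ A *ᵥ u)| ≤ θ) ∧
      T 0 = 1 ∧ (∀ t f i, HasDerivAt (fun t => (T t *ᵥ f) i) (-(A *ᵥ T t *ᵥ f) i) t) ∧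
      (∃ M : ℝ, ∀ t, 0 ≤ t → ∀ f, ‖T t *ᵥ f‖ ≤ M * ‖f‖) ∧
      ∀ g : Fin 2 → ℝ, (∀ i, 0 < g i) →
        ¬ ∀ t, 0 ≤ t → ∀ f : Fin 2 → ℂ, ‖fun i => g i * (T t *ᵥ f) i‖ ≤ ‖fun i => g i * f i‖ :=
  Pool.Agent.H95.WInf.main
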